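import Pool.Agent.Helper40.DZ.Defs
import Pool.Agent.Helper16.CZ.Pub

/-!
Moebius disjointness of compact group extensions with Riemann integrable cocycles:
statements of the modules (MP_7a8f48_an). Every module proves one `ST_X` from earlier ones,
which are hypotheses of its theorem.
-/

open Finset Filter MeasureTheory Topology
open scoped ComplexConjugate InnerProductSpace

namespace Pool.Agent.Helper40.DZ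

open Pool.Agent.Helper16.AZ (T E Op mm fc Eig PP)
open Pool.Agent.Helper16.BZ (co Wk EE ff EQ Act)
open Pool.Agent.Helper16.CZ (Tw Orth Fn)
open Pool.Agent.Helper16.MD (MS PB Am RW Rich)
open UnitAddTorus (mFourier)

/-! ## Block H: Hilbert space -/

/-- SDL: stationary sequences in a Hilbert space and their subsequences `w (q * h)`. -/
def ST_SDL : Prop := ∀ (V : Type) [NormedAddCommGroup V] [InnerProductSpace ℂ V] [CompleteSpace V]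
  (w : ℕ → V), (∀ k k' : ℕ, (inner ℂ (w (k + 1)) (w (k' + 1)) : ℂ) = inner ℂ (w k) (w k')) →
  (∃ L : ℕ → ℝ, (∀ q : ℕ, 1 ≤ q → Tendsto (fun H : ℕ => ‖∑ h ∈ range H, w (q * h)‖ ^ 2 /
      (H : ℝ) ^ 2) atTop (𝓝 (L q))) ∧ (∀ q : ℕ, 1 ≤ q → L 1 ≤ L q) ∧
    (∀ Q : Finset ℕ, (∀ q ∈ Q, 2 ≤ q) → (∀ q ∈ Q, ∀ q' ∈ Q, q ≠ q' → Nat.Coprime q q') →
      ∑ q ∈ Q, (L q - L 1) ≤ ‖w 0‖ ^ 2) ∧
    (∀ K : ℕ, 1 ≤ K → L 1 ≤ ‖∑ k ∈ range K, w k‖ ^ 2 / (K : ℝ) ^ 2)) ∧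
  ∀ p H t : ℕ, ‖∑ h ∈ range (H * t), w (p * h)‖ ≤ t * ‖∑ h ∈ range H, w (p * h)‖

/-- stationary positive definite kernels -/
def SK (N : ℕ → ℕ → ℝ) : Prop := (∃ (V : Type) (_ : NormedAddCommGroup V)
  (_ : InnerProductSpace ℂ V) (_ : CompleteSpace V) (w : ℕ → V),
  ∀ k k' : ℕ, (inner ℂ (w k) (w k') : ℂ) = ((N k k' : ℝ) : ℂ)) ∧
  ∀ k k' : ℕ, N (k + 1) (k' + 1) = N k k'

/-- KER: the same for stationary positive definite kernels. -/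
def ST_KER : Prop := ∀ N : ℕ → ℕ → ℝ, SK N →
  (∃ L : ℕ → ℝ, (∀ q : ℕ, 1 ≤ q → Tendsto (fun H : ℕ =>
      (∑ h ∈ range H, ∑ h' ∈ range H, N (q * h) (q * h')) / (H : ℝ) ^ 2) atTop (𝓝 (L q))) ∧
    (∀ q : ℕ, 1 ≤ q → L 1 ≤ L q) ∧
    (∀ Q : Finset ℕ, (∀ q ∈ Q, 2 ≤ q) → (∀ q ∈ Q, ∀ q' ∈ Q, q ≠ q' → Nat.Coprime q q') →
      ∑ q ∈ Q, (L q - L 1) ≤ N 0 0) ∧
    (∀ K : ℕ, 1 ≤ K → L 1 ≤ (∑ k ∈ range K, ∑ k' ∈ range K, N k k') / (K : ℝ) ^ 2)) ∧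
  ∀ p H t : ℕ, ∑ h ∈ range (H * t), ∑ h' ∈ range (H * t), N (p * h) (p * h') ≤
    (t : ℝ) ^ 2 * ∑ h ∈ range H, ∑ h' ∈ range H, N (p * h) (p * h')

/-! ## Block F: Fourier analysis -/

/-- RIS: Riemann integrable functions are near continuous functions. -/
def ST_RIS : Prop := ∀ (r : ℕ) (V : Type) [NormedAddCommGroup V] [NormedSpace ℝ V]
  (F : T r → V) (C : ℝ), (∀ᵐ x ∂(mm r), ContinuousAt F x) → (∀ x, ‖F x‖ ≤ C) →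
  ∀ ε : ℝ, 0 < ε → ∃ (G : T r → V) (R : T r → ℝ), Continuous G ∧ Continuous R ∧
    (∀ x, ‖F x - G x‖ ≤ R x) ∧ (∀ x, R x ≤ 2 * C) ∧ (∀ x, ‖G x‖ ≤ C) ∧ ∫ x, R x ∂(mm r) ≤ ε

/-- EQR: equidistribution for Riemann integrable functions. -/
def ST_EQR : Prop := ∀ (r : ℕ) (S : T r → T r), EQ S (mm r) → ∀ F : T r → ℂ, RI F →
  ∀ (p : ℕ) (x : T r), 1 ≤ p →
  Tendsto (fun N : ℕ => (∑ n ∈ range N, F (S^[p * n] x)) / (N : ℂ)) atTop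
    (𝓝 (∫ y, F y ∂(mm r))) ∧
  Tendsto (fun N : ℕ => (∑ n ∈ Icc 1 N, F (S^[p * n] x)) / (N : ℂ)) atTop
    (𝓝 (∫ y, F y ∂(mm r)))

/-- FPR: Parseval's identity for square integrable functions, and correlations with translates. -/
def ST_FPR : Prop := ∀ (r : ℕ) (F : T r → ℂ), MemLp F 2 (mm r) →
  HasSum (fun X : Fin r → ℤ => ‖fc F X‖ ^ 2) (∫ θ, ‖F θ‖ ^ 2 ∂(mm r)) ∧
  ∀ τ : T r, HasSum (fun X : Fin r → ℤ => ((‖fc F X‖ ^ 2 : ℝ) : ℂ) * mFourier (-X) τ)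
    (∫ y, F y * conj (F (y + τ)) ∂(mm r))

/-- NRV: the kernel of the masses is positive definite. -/
def ST_NRV : Prop := ∀ (r d : ℕ) (lev : Fin r → ℕ) (q j : ℕ) (g : ℕ → T r → E d),
  (∀ k, RI (g k)) → ∃ (V : Type) (_ : NormedAddCommGroup V) (_ : InnerProductSpace ℂ V)
  (_ : CompleteSpace V) (w : ℕ → V), ∀ k k' : ℕ, (inner ℂ (w k) (w k') : ℂ) =
    ((nr lev q j (fun y => (inner ℂ (g k y) (g k' y) : ℂ)) : ℝ) : ℂ)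

/-- NRS: the masses are invariant. -/
def ST_NRS : Prop := ∀ (r : ℕ) (lev : Fin r → ℕ) (D : Matrix (Fin r) (Fin r) ℤ)
  (ψ : Fin r → T r → ℝ) (S : T r → T r), Tw lev D ψ S → ∀ (q j : ℕ) (F : T r → ℂ),
  Continuous S → RI F → nr lev q j (fun x => F (S x)) = nr lev q j F

/-- QLM: the masses for `q → ∞`. -/
def ST_QLM : Prop := ∀ (r : ℕ) (lev : Fin r → ℕ) (j : ℕ) (F : T r → ℂ), MemLp F 2 (mm r) →
  Tendsto (fun q : ℕ => nr lev q j F) atTop (𝓝 (nr lev 0 j F))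

/-- NRD: elementary properties of the masses. -/
def ST_NRD : Prop := ∀ (r : ℕ) (lev : Fin r → ℕ) (F : T r → ℂ), MemLp F 2 (mm r) →
  (∀ q Lv : ℕ, (∀ i, lev i < Lv) →
    mq lev q F = ∑ j ∈ range Lv, (nr lev q j F - nr lev 0 j F)) ∧
  (∀ q j : ℕ, 0 ≤ nr lev q j F ∧ nr lev q j F ≤ ∫ θ, ‖F θ‖ ^ 2 ∂(mm r)) ∧
  (∀ q : ℕ, 0 ≤ mq lev q F ∧ mq lev q F ≤ ∫ θ, ‖F θ‖ ^ 2 ∂(mm r)) ∧
  nr lev 0 0 F = ‖∫ θ, F θ ∂(mm r)‖ ^ 2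

/-- MQC: the square root of the mass `mq` is a Lipschitz function. -/
def ST_MQC : Prop := ∀ (r : ℕ) (lev : Fin r → ℕ) (q : ℕ) (F G : T r → ℂ), MemLp F 2 (mm r) →
  MemLp G 2 (mm r) → Real.sqrt (mq lev q G) ≤ Real.sqrt (mq lev q F) +
    Real.sqrt (∫ θ, ‖G θ - F θ‖ ^ 2 ∂(mm r))

/-! ## Block P: sums over primes -/

/-- PAT: trigonometric polynomials along the multiples of primes. -/
def ST_PAT : Prop := ∀ (r : ℕ) (lev : Fin r → ℕ) (D : Matrix (Fin r) (Fin r) ℤ)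
  (ψ : Fin r → T r → ℝ) (S : T r → T r), Tw lev D ψ S → ∀ (x : T r) (Q : Finset ℕ)
  (A : Finset (Fin r → ℤ)) (a : ℕ → (Fin r → ℤ) → ℂ), (∀ p ∈ Q, p.Prime) → 0 ∈ A →
  ∀ ε : ℝ, 0 < ε → ∀ᶠ M : ℕ in atTop,
  ∑ y ∈ Icc 1 M, ‖∑ p ∈ Q, ∑ X ∈ A, a p X * mFourier X (S^[p * y] x)‖ ^ 2 ≤
    (‖∑ p ∈ Q, a p 0‖ ^ 2 + ∑ p ∈ Q, ∑ X ∈ A, ‖a p X‖ ^ 2 +
      ∑ p ∈ Q, ∑ q ∈ Q.erase p, ∑ X ∈ A, (RR lev q).indicator (fun X => ‖a p X‖ ^ 2) X + ε) * M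

/-- PAR: Riemann integrable functions along the multiples of primes. -/
def ST_PAR : Prop := ∀ (r : ℕ) (lev : Fin r → ℕ) (D : Matrix (Fin r) (Fin r) ℤ)
  (ψ : Fin r → T r → ℝ) (S : T r → T r), Tw lev D ψ S → ∀ (x : T r) (Q : Finset ℕ)
  (F : ℕ → T r → ℂ), (∀ p ∈ Q, p.Prime) → (∀ p ∈ Q, RI (F p)) →
  ∀ ε : ℝ, 0 < ε → ∀ᶠ M : ℕ in atTop,
  ∑ y ∈ Icc 1 M, ‖∑ p ∈ Q, F p (S^[p * y] x)‖ ^ 2 ≤
    (‖∑ p ∈ Q, ∫ y, F p y ∂(mm r)‖ ^ 2 + ∑ p ∈ Q, ∫ y, ‖F p y‖ ^ 2 ∂(mm r) +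
      ∑ p ∈ Q, ∑ q ∈ Q.erase p, mq lev q (F p) + ε) * M

/-- KNA: the kernels of the masses of the functions `EE`. -/
def ST_KNA : Prop := ∀ (r d : ℕ) (lev : Fin r → ℕ) (D : Matrix (Fin r) (Fin r) ℤ)
  (ψ : Fin r → T r → ℝ) (S : T r → T r) (φ : T r → Op d) (c : T r → E d), Tw lev D ψ S →
  Continuous S → UR φ → Continuous c →
  ∀ q j : ℕ, SK (fun k k' => nr lev q j (EE S φ c k k'))

/-- STA: the resonances are small on the average. -/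
def ST_STA : Prop := ∀ (r d : ℕ) (lev : Fin r → ℕ) (D : Matrix (Fin r) (Fin r) ℤ)
  (ψ : Fin r → T r → ℝ) (S : T r → T r) (φ : T r → Op d) (c : T r → E d), Tw lev D ψ S →
  Continuous S → UR φ → Continuous c → ∀ δ : ℝ, 0 < δ → ∀ᶠ i : ℕ in atTop, Rich 1 i →
  ∃ t₀ : ℕ, ∀ H : ℕ, t₀ ≤ H →
    ∑ h ∈ range H, ∑ h' ∈ range H, (∑ p ∈ PB 1 i, ∫ y, ‖EE S φ c (p * h) (p * h') y‖ ^ 2 ∂(mm r) +
      ∑ p ∈ PB 1 i, ∑ q ∈ (PB 1 i).erase p, mq lev q (EE S φ c (p * h) (p * h'))) ≤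
    δ * ((PB 1 i).card : ℝ) ^ 2 * (H : ℝ) ^ 2

/-- STR: the sums of the inner products over a block of primes. -/
def ST_STR : Prop := ∀ (r d : ℕ) (lev : Fin r → ℕ) (D : Matrix (Fin r) (Fin r) ℤ)
  (ψ : Fin r → T r → ℝ) (S : T r → T r) (φ : T r → Op d) (c : T r → E d) (κ : ℝ) (H₀ : ℕ),
  Tw lev D ψ S → Continuous S → UR φ → Continuous c → 0 < κ → 1 ≤ H₀ →
  (∀ᶠ i : ℕ in atTop, Rich 1 i → ∑ p ∈ PB 1 i, ∑ h ∈ range H₀, ∑ h' ∈ range H₀,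
    ‖∫ x, EE S φ c (p * h) (p * h') x ∂(mm r)‖ ^ 2 ≤ κ * (PB 1 i).card * (H₀ : ℝ) ^ 2) →
  ∀ᶠ i : ℕ in atTop, Rich 1 i → ∃ H : ℕ, 1 ≤ H ∧ ∀ Q ⊆ PB 1 i, ∀ x : T r,
  ∀ᶠ M : ℕ in atTop, ∑ h ∈ range H, ∑ h' ∈ range H, ∑ y ∈ Icc 1 M,
    ‖∑ p ∈ Q, EE S φ c (p * h) (p * h') (S^[p * y] x)‖ ^ 2 ≤
      2 * κ * ((PB 1 i).card : ℝ) ^ 2 * (H : ℝ) ^ 2 * M

/-- PTC: the random part. -/
def ST_PTC3 : Prop := ∀ η : ℝ, 0 < η → η ≤ 1 → ∃ κ : ℝ, 0 < κ ∧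
  ∀ (r d : ℕ) (lev : Fin r → ℕ) (D : Matrix (Fin r) (Fin r) ℤ)
  (ψ : Fin r → T r → ℝ) (S : T r → T r) (φ : T r → Op d) (c : T r → E d) (u : E d) (x : T r)
  (H : ℕ), Tw lev D ψ S → Continuous S → EQ S (mm r) → UR φ → Continuous c →
  ∫ x, ‖c x‖ ^ 2 ∂(mm r) ≤ 3 / 2 → ‖u‖ ≤ 1 → 1 ≤ H →
  (∀ᶠ i : ℕ in atTop, Rich 1 i → ∑ p ∈ PB 1 i, ∑ h ∈ range H, ∑ h' ∈ range H,
    ‖∫ x, EE S φ c (p * h) (p * h') x ∂(mm r)‖ ^ 2 ≤ κ * (PB 1 i).card * (H : ℝ) ^ 2) →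
  ∀ᶠ N : ℕ in atTop, ‖MS (ff S φ c u x) N‖ ≤ η * N

/-! ## Block W: the decomposition for measurable cocycles -/

/-- WOP: the operator. -/
def ST_WOP3 : Prop := ∀ (X : Type) [MetricSpace X] [CompactSpace X] [MeasurableSpace X]
  [BorelSpace X] (S : X ≃ₜ X) (m : Measure X) [IsProbabilityMeasure m] (d : ℕ) (φ : X → Op d),
  MeasurePreserving S m m → UM m φ → ∃ W : Lp (E d) 2 m →L[ℂ] Lp (E d) 2 m,
    W ∈ unitary (Lp (E d) 2 m →L[ℂ] Lp (E d) 2 m) ∧ Act S m φ W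

/-- WPW: the powers of the operator. -/
def ST_WPW3 : Prop := ∀ (X : Type) [MetricSpace X] [CompactSpace X] [MeasurableSpace X]
  [BorelSpace X] (S : X ≃ₜ X) (m : Measure X) [IsProbabilityMeasure m] (d : ℕ) (φ : X → Op d)
  (W : Lp (E d) 2 m →L[ℂ] Lp (E d) 2 m) (c : X → E d) (f : Lp (E d) 2 m),
  MeasurePreserving S m m → UM m φ → Act S m φ W → Continuous c →
  (∀ᵐ x ∂m, (f : X → E d) x = c x) →
  (∀ k : ℕ, ∀ᵐ x ∂m, ((W ^ k) f : X → E d) x = Wk S φ k c x) ∧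
  ∀ k k' : ℕ, inner ℂ ((W ^ k) f) ((W ^ k') f) = ∫ x, EE S φ c k k' x ∂m

/-- DEC: the decomposition. -/
def ST_DEC3 : Prop := ∀ (X : Type) [MetricSpace X] [CompactSpace X] [MeasurableSpace X]
  [BorelSpace X] (S : X ≃ₜ X) (m : Measure X) [IsProbabilityMeasure m] (d : ℕ) (φ : X → Op d)
  (v : X → E d) (ε κ : ℝ), MeasurePreserving S m m → UM m φ → Continuous v →
  (∀ x, ‖v x‖ ≤ 1) → 0 < ε → 0 < κ →
  ∃ b c : X → E d, Continuous b ∧ Continuous c ∧ (∀ x, b x + c x = v x) ∧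
  ∫ x, ‖c x‖ ^ 2 ∂m ≤ 3 / 2 ∧
  (∃ (K : ℕ) (z : ℕ → ℂ) (g : ℕ → X → E d), (∀ k, ‖z k‖ = 1 ∧ Continuous (g k)) ∧
    ∀ h : ℕ, ∫ x, ‖Wk S φ h b x - ∑ k ∈ range K, (z k ^ h) • g k x‖ ^ 2 ∂m ≤ ε ^ 2) ∧
  ∃ H : ℕ, 1 ≤ H ∧ ∀ᶠ i : ℕ in atTop, Rich 1 i →
    ∑ p ∈ PB 1 i, ∑ h ∈ range H, ∑ h' ∈ range H,
      ‖∫ x, EE S φ c (p * h) (p * h') x ∂m‖ ^ 2 ≤ κ * (PB 1 i).card * (H : ℝ) ^ 2

/-- PTB: the structured part. -/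
def ST_PTB3 : Prop := ∀ (r d : ℕ) (S : T r → T r) (φ : T r → Op d)
  (b : T r → E d) (u : E d) (x : T r) (ε : ℝ) (K : ℕ) (z : ℕ → ℂ) (g : ℕ → T r → E d),
  Continuous S → MeasurePreserving S (mm r) (mm r) →
  EQ S (mm r) → UR φ → Continuous b → ‖u‖ ≤ 1 → 0 ≤ ε → (∀ k, ‖z k‖ = 1 ∧ Continuous (g k)) →
  (∀ h : ℕ, ∫ x, ‖Wk S φ h b x - ∑ k ∈ range K, (z k ^ h) • g k x‖ ^ 2 ∂(mm r) ≤ ε ^ 2) →
  ∀ δ : ℝ, 0 < δ → ∀ᶠ N : ℕ in atTop, ‖MS (ff S φ b u x) N‖ ≤ (ε + δ) * N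

/-- THB: the theorem for towers. -/
def ST_THB3 : Prop := ∀ (r : ℕ) (lev : Fin r → ℕ) (D : Matrix (Fin r) (Fin r) ℤ)
  (ψ : Fin r → T r → ℝ) (S : T r → T r), Tw lev D ψ S → Good3 S

/-! ## Block A: affine maps -/

/-- LAT: a basis adapted to a chain of primitive lattices. -/
def ST_LAT : Prop := ∀ (r n : ℕ) (Λ : ℕ → Submodule ℤ (Fin r → ℤ)), Λ 0 = ⊥ →
  (∀ j, Λ j ≤ Λ (j + 1)) → Λ n = ⊤ → (∀ (j : ℕ) (a : ℤ) (X : Fin r → ℤ), a ≠ 0 →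
  a • X ∈ Λ j → X ∈ Λ j) → ∃ (b : Module.Basis (Fin r) ℤ (Fin r → ℤ)) (lev : Fin r → ℕ),
  ∀ (j : ℕ) (X : Fin r → ℤ), X ∈ Λ j ↔ ∀ i, j ≤ lev i → b.repr X i = 0

/-- AFB: a minimal unipotent affine map is conjugate to a tower. -/
def ST_AFB : Prop := ∀ (r : ℕ) (A : Matrix (Fin r) (Fin r) ℤ) (β : T r) (S : C(T r, T r)),
  Pool.Agent.Helper16.CZP.Affine A β S → ∃ (h : T r ≃ₜ T r) (lev : Fin r → ℕ)
  (D : Matrix (Fin r) (Fin r) ℤ) (ψ : Fin r → T r → ℝ) (S' : T r → T r), Tw lev D ψ S' ∧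
  MeasurePreserving h (mm r) (mm r) ∧ ∀ x, h (S x) = S' (h x)

/-- GBS: the theorem for the transformations `Base`. -/
def ST_GBS : Prop := ∀ (r : ℕ) (S : C(T r, T r)), Pool.Agent.Helper16.CZP.Base S → Good3 S

/-! ## Block X: skew products -/

/-- a product of countably many unitary groups (every compact metrizable group is a closed subgroup
of such a product) -/
abbrev UU (d : ℕ → ℕ) : Type := ∀ k : ℕ, Matrix.unitaryGroup (Fin (d k)) ℂ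

/-- the skew product -/
noncomputable def SK3 {r : ℕ} {d : ℕ → ℕ} (S : T r → T r) (Φ : T r → UU d) :
    T r × UU d → T r × UU d := fun y => (S y.1, Φ y.1 * y.2)

/-- products of entries and of conjugates of entries -/
noncomputable def mono {d : ℕ → ℕ} {L : ℕ} (s : Fin L → Bool) (k : Fin L → ℕ)
    (I J : ∀ l : Fin L, Fin (d (k l))) (g : UU d) : ℂ :=
  ∏ l, if s l then (g (k l) : Matrix (Fin (d (k l))) (Fin (d (k l))) ℂ) (I l) (J l)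
    else conj ((g (k l) : Matrix (Fin (d (k l))) (Fin (d (k l))) ℂ) (I l) (J l))

/-- XMN: the theorem for products of entries. -/
def ST_XMN : Prop := ∀ (r : ℕ) (d : ℕ → ℕ) (S : T r → T r) (Φ : T r → UU d),
  Good3 S → (∀ᵐ x ∂(mm r), ContinuousAt Φ x) → ∀ (f : C(T r, ℂ)) (L : ℕ) (s : Fin L → Bool)
  (k : Fin L → ℕ) (I J : ∀ l : Fin L, Fin (d (k l))) (y : T r × UU d), Tendsto (fun N : ℕ =>
    MS (fun n => f ((SK3 S Φ)^[n] y).1 * mono s k I J ((SK3 S Φ)^[n] y).2) N / (N : ℂ)) atTop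
      (𝓝 0)

/-- XSD: density. -/
def ST_XSD : Prop := ∀ (r : ℕ) (d : ℕ → ℕ), closure ((Submodule.span ℂ {F : C(T r × UU d, ℂ) |
  ∃ (f : C(T r, ℂ)) (L : ℕ) (s : Fin L → Bool) (k : Fin L → ℕ)
    (I J : ∀ l : Fin L, Fin (d (k l))), ∀ y, F y = f y.1 * mono s k I J y.2} :
    Submodule ℂ C(T r × UU d, ℂ)) : Set C(T r × UU d, ℂ)) = Set.univ

/-- XTH: the theorem for skew products. -/
def ST_XTH3 : Prop := ∀ (r : ℕ) (d : ℕ → ℕ) (S : T r → T r) (Φ : T r → UU d),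
  Good3 S → (∀ᵐ x ∂(mm r), ContinuousAt Φ x) → ∀ (F : C(T r × UU d, ℂ)) (y : T r × UU d),
  Tendsto (fun N : ℕ => MS (fun n => F ((SK3 S Φ)^[n] y)) N / (N : ℂ)) atTop (𝓝 0)

/-- the skew product with values in a subgroup -/
noncomputable def SKG3 {r : ℕ} {d : ℕ → ℕ} (G : Subgroup (UU d)) (S : T r → T r)
    (Φ : T r → G) : T r × G → T r × G := fun y => (S y.1, Φ y.1 * y.2)

/-- XGR: the theorem for skew products with values in a closed subgroup. -/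
def ST_XGR3 : Prop := ∀ (r : ℕ) (d : ℕ → ℕ) (G : Subgroup (UU d))
  (S : T r → T r) (Φ : T r → G), IsClosed (G : Set (UU d)) →
  Good3 S → (∀ᵐ x ∂(mm r), ContinuousAt Φ x) → ∀ (F : C(T r × G, ℂ)) (y : T r × G),
  Tendsto (fun N : ℕ => MS (fun n => F ((SKG3 G S Φ)^[n] y)) N / (N : ℂ)) atTop (𝓝 0)

/-! ## Block C: C*-algebras -/

universe u

open Pool.Agent.Helper40.Mob (IsState TwistedDisjoint)
open Pool.Agent.Helper16.BZ (Rot)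

/-- the elements `v i` of the algebra are transformed by the continuous cocycle `Φ` -/
def Fam3 {A : Type u} [CStarAlgebra A] {r : ℕ} (α : A →⋆ₐ[ℂ] A) (π : C(T r, ℂ) →⋆ₐ[ℂ] A)
    {ι : Type} [Fintype ι] [DecidableEq ι] (Φ : C(T r, Matrix ι ι ℂ)) (v : ι → A) : Prop :=
  (∀ x, Φ x ∈ Matrix.unitaryGroup ι ℂ) ∧
  ∀ i, α (v i) = ∑ j, π ⟨fun x => Φ x i j, by fun_prop⟩ * v j

/-- CIT: the iterates of a family. -/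
def ST_CIT3 : Prop := ∀ (A : Type u) [CStarAlgebra A] (r d : ℕ) (S : C(T r, T r))
  (α : A →⋆ₐ[ℂ] A) (π : C(T r, ℂ) →⋆ₐ[ℂ] A) (Φ : C(T r, Matrix (Fin d) (Fin d) ℂ))
  (v : Fin d → A), Rot S α π → Fam3 α π Φ v → ∀ (n : ℕ) (i : Fin d) (f : C(T r, ℂ)),
  ∃ F : Fin d → C(T r, ℂ),
  (∀ j x, F j x = f (S^[n] x) * inner ℂ (EuclideanSpace.single i (1 : ℂ))
    (co S (fun x => Matrix.toEuclideanCLM (𝕜 := ℂ) (Φ x)) n x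
      (EuclideanSpace.single j (1 : ℂ)))) ∧ α^[n] (π f * v i) = ∑ j, π (F j) * v j

/-- CTH: the theorem for one family. -/
def ST_CTH3 : Prop := ∀ (A : Type u) [CStarAlgebra A] (r d : ℕ) (S : C(T r, T r))
  (α : A →⋆ₐ[ℂ] A) (π : C(T r, ℂ) →⋆ₐ[ℂ] A) (Φ : C(T r, Matrix (Fin d) (Fin d) ℂ))
  (v : Fin d → A), Good3 S → Rot S α π → Fam3 α π Φ v →
  ∀ (f : C(T r, ℂ)) i, TwistedDisjoint α (π f * v i)

/-- CSP: the theorem for the closed linear span. -/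
def ST_CSP3 : Prop := ∀ (A : Type u) [CStarAlgebra A] (r : ℕ) (S : C(T r, T r))
  (α : A →⋆ₐ[ℂ] A) (π : C(T r, ℂ) →⋆ₐ[ℂ] A), Good3 S → Rot S α π → ∀ a : A,
  a ∈ closure ((Submodule.span ℂ {x : A | ∃ (d : ℕ) (Φ : C(T r, Matrix (Fin d) (Fin d) ℂ))
    (v : Fin d → A), Fam3 α π Φ v ∧ ∃ (f : C(T r, ℂ)) (i : Fin d), π f * v i = x} :
    Submodule ℂ A) : Set A) → TwistedDisjoint α a

end Pool.Agent.Helper40.DZ
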