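import Mathlib
import Pool.Agent.Helper16.CZ.Pub

/-!
Definitions used in the statement on compact group extensions with continuous (and with Riemann
integrable) cocycles.
-/

open MeasureTheory Filter Topology
open scoped ArithmeticFunction.Moebius

namespace Pool.Agent.Helper40.DZP

open Pool.Agent.Helper16.CZP (Base)

universe u

/-- the product of the unitary groups `U(d k)`, `k = 0, 1, 2, …` (by the theorem of Peter and Weyl
every compact metrizable group is isomorphic to a closed subgroup of such a product) -/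
abbrev UU (d : ℕ → ℕ) : Type := ∀ k : ℕ, Matrix.unitaryGroup (Fin (d k)) ℂ

/-- the discontinuities of `Φ` are a null set for the Haar measure of the torus -/
def NullDisc {r : ℕ} {Y : Type} [TopologicalSpace Y] (Φ : UnitAddTorus (Fin r) → Y) : Prop :=
  ∀ᵐ x ∂(Measure.pi fun _ : Fin r => (AddCircle.haarAddCircle : Measure UnitAddCircle)),
    ContinuousAt Φ x

/-- `F` is bounded, and for almost all `x` in the torus it is continuous at `(x, y)` for
all `y` -/
def FibreCont {r : ℕ} {Y : Type} [TopologicalSpace Y] (F : UnitAddTorus (Fin r) × Y → ℂ) : Prop :=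
  (∃ C : ℝ, ∀ z, ‖F z‖ ≤ C) ∧
  ∀ᵐ x ∂(Measure.pi fun _ : Fin r => (AddCircle.haarAddCircle : Measure UnitAddCircle)),
    ∀ y, ContinuousAt F (x, y)

/-- `S` is an affine map `x ↦ A x + β` of the torus and all eigenvalues of the integer matrix `A`
are zero or roots of unity (that is, the entropy of `S` is zero) -/
def ZeroEnt {r : ℕ} (S : C(UnitAddTorus (Fin r), UnitAddTorus (Fin r))) : Prop :=
  ∃ (A : Matrix (Fin r) (Fin r) ℤ) (β : UnitAddTorus (Fin r)),
    (∃ m Q : ℕ, 1 ≤ Q ∧ A ^ m * (A ^ Q - 1) ^ r = 0) ∧ ∀ x i, S x i = (∑ j, A i j • x j) + β i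

/-- the skew product `(x, g) ↦ (S x, Φ(x) g)` -/
noncomputable def SKG {r : ℕ} {d : ℕ → ℕ} (G : Subgroup (UU d))
    (S : C(UnitAddTorus (Fin r), UnitAddTorus (Fin r))) (Φ : UnitAddTorus (Fin r) → G) :
    UnitAddTorus (Fin r) × G → UnitAddTorus (Fin r) × G := fun y => (S y.1, Φ y.1 * y.2)

/-- the averages of `μ(n) F(Tⁿ y)` tend to zero -/
def Vanish {X : Type} (T : X → X) (F : X → ℂ) (y : X) : Prop :=
  Tendsto (fun N : ℕ => (∑ n ∈ Finset.Icc 1 N, (μ n : ℂ) * F (T^[n] y)) / (N : ℂ)) atTop (𝓝 0)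

/-- the hypotheses on `S`, the cocycle `Φ` and the function `F` -/
def Adm {r : ℕ} {Y : Type} [TopologicalSpace Y]
    (S : C(UnitAddTorus (Fin r), UnitAddTorus (Fin r))) (Φ : UnitAddTorus (Fin r) → Y)
    (F : UnitAddTorus (Fin r) × Y → ℂ) : Prop :=
  (Base S ∧ NullDisc Φ ∧ FibreCont F) ∨ (ZeroEnt S ∧ Continuous Φ ∧ Continuous F)

/-- `Φ` is a continuous function from the torus to the unitary group and
`α (v i) = ∑ j, π (Φ i j) * v j` -/
def Fam {B : Type u} [CStarAlgebra B] {r : ℕ} (α : B →⋆ₐ[ℂ] B)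
    (π : C(UnitAddTorus (Fin r), ℂ) →⋆ₐ[ℂ] B) {ι : Type} [Fintype ι] [DecidableEq ι]
    (Φ : C(UnitAddTorus (Fin r), Matrix ι ι ℂ)) (v : ι → B) : Prop :=
  (∀ x, Φ x ∈ Matrix.unitaryGroup ι ℂ) ∧
  ∀ i, α (v i) = ∑ j, π ⟨fun x => Φ x i j, by fun_prop⟩ * v j

/-- the products `π f * v i` for all families `v` as in `Fam` -/
def FamSet {B : Type u} [CStarAlgebra B] {r : ℕ} (α : B →⋆ₐ[ℂ] B)
    (π : C(UnitAddTorus (Fin r), ℂ) →⋆ₐ[ℂ] B) : Set B :=
  {x : B | ∃ (d : ℕ) (Φ : C(UnitAddTorus (Fin r), Matrix (Fin d) (Fin d) ℂ)) (v : Fin d → B),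
    Fam α π Φ v ∧ ∃ (f : C(UnitAddTorus (Fin r), ℂ)) (i : Fin d), π f * v i = x}

end Pool.Agent.Helper40.DZP
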