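import Pool.Agent.Helper40.DZ.Stmts

/-!
GBS: the theorem for the transformations `Base` (MP_7a8f48_an).
-/

open Finset Filter MeasureTheory Topology
open scoped ComplexConjugate InnerProductSpace

namespace Pool.Agent.Helper40.DZ

open Pool.Agent.Helper16.AZ (T E Op mm fc Eig PP)
open Pool.Agent.Helper16.BZ (co Wk EE ff EQ Act)
open Pool.Agent.Helper16.CZ (Tw Orth Fn)
open Pool.Agent.Helper16.MD (MS PB Am RW Rich)

/-- transfer to a conjugate transformation -/
theorem gbs_conj {r : ℕ} (S S' : T r → T r) (h : T r ≃ₜ T r)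
    (hm : MeasurePreserving h (mm r) (mm r)) (hc : ∀ x, h (S x) = S' (h x)) (hS' : Good3 S') :
    Good3 S := by
  intro d φ v u x hφ hv
  have hit : ∀ n : ℕ, h (S^[n] x) = S'^[n] (h x) := by
    intro n
    exact (Function.Semiconj.iterate_right (f := h) (ga := S) (gb := S') hc n) x
  have hco : ∀ n : ℕ, co S' (fun y => φ (h.symm y)) n (h x) = co S φ n x := by
    intro n
    induction n with
    | zero => rfl
    | succ n ih =>
      rw [Pool.Agent.Helper16.BZ.co_succ, Pool.Agent.Helper16.BZ.co_succ, ih, ← hit,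
        h.symm_apply_apply]
  have hff : ff S' (fun y => φ (h.symm y)) (fun y => v (h.symm y)) u (h x) = ff S φ v u x := by
    funext n
    unfold ff
    rw [hco, ← hit]
    simp only [h.symm_apply_apply]
  have hm' : MeasurePreserving h.symm (mm r) (mm r) :=
    MeasurePreserving.symm h.toMeasurableEquiv hm
  have hUR : UR (fun y => φ (h.symm y)) := by
    refine ⟨?_, fun y => hφ.2 _⟩
    filter_upwards [hm'.quasiMeasurePreserving.ae hφ.1] with y hy
    exact ContinuousAt.comp (f := h.symm) hy h.symm.continuous.continuousAt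
  have h1 := hS' d (fun y => φ (h.symm y)) (fun y => v (h.symm y)) u (h x) hUR
    (hv.comp h.symm.continuous)
  rwa [hff] at h1

theorem st_GBS (h1 : ST_THB3) (h2 : ST_AFB) (h3 : Pool.Agent.Helper16.CZ.ST_CFN) : ST_GBS := by
  intro r S hS
  rcases hS with ⟨A, β, hA⟩ | ⟨lev, D, f, hT⟩
  · obtain ⟨h, lev, D, ψ, S', hT, hm, hc⟩ := h2 r A β S hA
    exact gbs_conj S S' h hm hc (h1 r lev D ψ S' hT)
  · obtain ⟨ψ, hψ⟩ := h3 r lev D f S hT
    exact h1 r lev D ψ S hψ

end Pool.Agent.Helper40.DZ
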