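import Pool.Agent.Helper95.DZ.RIXS

/-!
Moebius disjointness of compact group extensions with Riemann integrable cocycles:
module EQR (equidistribution for Riemann integrable functions).
-/

open Finset Filter MeasureTheory Topology
open scoped ComplexConjugate InnerProductSpace

namespace Pool.Agent.Helper40.DZ

open Pool.Agent.Helper16.AZ (T E Op mm)
open Pool.Agent.Helper16.BZ (EQ)

theorem eqr_range (hR : ST_RIS) {r : ℕ} {S : T r → T r} (hE : EQ S (mm r)) {F : T r → ℂ}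
    (hF : RI F) {p : ℕ} (x : T r) (hp : 1 ≤ p) :
    Tendsto (fun N : ℕ => (∑ n ∈ range N, F (S^[p * n] x)) / (N : ℂ)) atTop
      (𝓝 (∫ y, F y ∂(mm r))) := by
  obtain ⟨C, hC⟩ := hF.2
  rw [Metric.tendsto_atTop]
  intro ε hε
  obtain ⟨G, R, hG, hRc, h1, -, -, h4⟩ := hR r ℂ F C hF.1 hC (ε / 5) (by linarith)
  have h5 := hE p hp G hG x
  have h6 := hE p hp (fun y => ((R y : ℝ) : ℂ)) (Complex.continuous_ofReal.comp hRc) x
  rw [Metric.tendsto_atTop] at h5 h6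
  obtain ⟨N₁, hN₁⟩ := h5 (ε / 5) (by linarith)
  obtain ⟨N₂, hN₂⟩ := h6 (ε / 5) (by linarith)
  have hGi : Integrable G (mm r) := (RI.of_continuous hG).integrable
  have hRi : Integrable R (mm r) := (RI.of_continuous hRc).integrable
  have h7 : ‖∫ y, G y ∂(mm r) - ∫ y, F y ∂(mm r)‖ ≤ ε / 5 := by
    rw [← integral_sub hGi hF.integrable]
    refine (norm_integral_le_integral_norm _).trans ?_
    refine (integral_mono (hGi.sub hF.integrable).norm hRi fun y => ?_).trans h4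
    show ‖G y - F y‖ ≤ R y
    rw [norm_sub_rev]
    exact h1 y
  refine ⟨max (max N₁ N₂) 1, fun N hN => ?_⟩
  have hN1 : N₁ ≤ N := (le_max_left _ _).trans ((le_max_left _ _).trans hN)
  have hN2 : N₂ ≤ N := (le_max_right _ _).trans ((le_max_left _ _).trans hN)
  have hN3 : 1 ≤ N := (le_max_right _ _).trans hN
  have hNp : (0 : ℝ) < N := by exact_mod_cast hN3
  have h8 := hN₁ N hN1
  have h9 := hN₂ N hN2
  rw [dist_eq_norm] at h8 h9 ⊢
  have h10 : (∑ n ∈ range N, R (S^[p * n] x)) / (N : ℝ) ≤ 2 * (ε / 5) := by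
    have e1 : (∑ n ∈ range N, ((R (S^[p * n] x) : ℝ) : ℂ)) / (N : ℂ) -
        ∫ y, ((R y : ℝ) : ℂ) ∂(mm r) =
        (((∑ n ∈ range N, R (S^[p * n] x)) / (N : ℝ) - ∫ y, R y ∂(mm r) : ℝ) : ℂ) := by
      push_cast
      rw [integral_complex_ofReal]
    rw [e1, Complex.norm_real, Real.norm_eq_abs] at h9
    have := (abs_lt.mp h9).2
    linarith
  have h11 : ‖(∑ n ∈ range N, F (S^[p * n] x)) / (N : ℂ) -
      (∑ n ∈ range N, G (S^[p * n] x)) / (N : ℂ)‖ ≤ 2 * (ε / 5) := by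
    rw [← sub_div, ← Finset.sum_sub_distrib, norm_div, Complex.norm_natCast]
    refine le_trans (div_le_div_of_nonneg_right ?_ hNp.le) h10
    exact (norm_sum_le _ _).trans (Finset.sum_le_sum fun n _ => h1 _)
  have e2 : (∑ n ∈ range N, F (S^[p * n] x)) / (N : ℂ) - ∫ y, F y ∂(mm r) =
      ((∑ n ∈ range N, F (S^[p * n] x)) / (N : ℂ) - (∑ n ∈ range N, G (S^[p * n] x)) / (N : ℂ)) +
      ((∑ n ∈ range N, G (S^[p * n] x)) / (N : ℂ) - ∫ y, G y ∂(mm r)) +
      (∫ y, G y ∂(mm r) - ∫ y, F y ∂(mm r)) := by ring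
  rw [e2]
  have h12 := norm_add₃_le (a := (∑ n ∈ range N, F (S^[p * n] x)) / (N : ℂ) -
    (∑ n ∈ range N, G (S^[p * n] x)) / (N : ℂ)) (b := (∑ n ∈ range N, G (S^[p * n] x)) / (N : ℂ) -
    ∫ y, G y ∂(mm r)) (c := ∫ y, G y ∂(mm r) - ∫ y, F y ∂(mm r))
  linarith

theorem st_EQR (hR : ST_RIS) : ST_EQR := by
  intro r S hE F hF p x hp
  refine ⟨eqr_range hR hE hF x hp, ?_⟩
  refine (eqr_range hR hE hF (S^[p] x) hp).congr fun N => ?_
  have h4 : ∑ n ∈ Icc 1 N, F (S^[p * n] x) = ∑ n ∈ range N, F (S^[p * (n + 1)] x) := by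
    rw [Finset.range_eq_Ico, Finset.sum_Ico_add' (fun n => F (S^[p * n] x)) 0 N 1]
    rfl
  rw [h4]
  congr 1
  refine Finset.sum_congr rfl fun n _ => ?_
  rw [mul_add, mul_one, Function.iterate_add_apply]

end Pool.Agent.Helper40.DZ
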