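import Pool.Agent.Helper40.DZ.Stmts2

/-!
Moebius disjointness of compact group extensions: module ZEA (affine maps of zero entropy).
-/

open Finset Filter MeasureTheory Topology
open scoped ComplexConjugate InnerProductSpace

namespace Pool.Agent.Helper40.DZ

open Pool.Agent.Helper16.AZ (T E Op mm)

theorem st_ZEA (hO : ST_ORB) (hB : ST_BLK) (hG : ST_GBS) : ST_ZEA := by
  intro r A β S hS d φ v u x hφ hu hv
  obtain ⟨N, Q, n₀, A', β', S', P, y, hQ, hA, hP, hn⟩ := hO r A β S x hS
  refine hB r N Q n₀ S S' P x y hQ hP hn ?_ d φ v u hφ hu hv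
  intro d' φ' v' u' x' hφ' hu' hv'
  exact hG N S' (Or.inl ⟨A', β', hA⟩) d' φ' v' u' x' (UR.of_continuous hφ' hu') hv'

end Pool.Agent.Helper40.DZ
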