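import Pool.Agent.Helper1.DZ.PTB3
import Pool.Agent.Helper16.CZ.All
import Pool.Agent.Helper2.DZ.AFB
import Pool.Agent.Helper2.DZ.LAT
import Pool.Agent.Helper29.DZ.PAT
import Pool.Agent.Helper36.DZ.THB3
import Pool.Agent.Helper40.DZ.EQR
import Pool.Agent.Helper40.DZ.GBS
import Pool.Agent.Helper40.DZ.ZEA
import Pool.Agent.Helper51.DZ.KNA
import Pool.Agent.Helper72.DZ.STR
import Pool.Agent.Helper57.DZ.FPR
import Pool.Agent.Helper57.DZ.MQC
import Pool.Agent.Helper57.DZ.NRD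
import Pool.Agent.Helper57.DZ.ORB
import Pool.Agent.Helper57.DZ.QLM
import Pool.Agent.Helper62.DZ.KER
import Pool.Agent.Helper62.DZ.PAR
import Pool.Agent.Helper62.DZ.SDL
import Pool.Agent.Helper72.DZ.DEC3
import Pool.Agent.Helper72.DZ.PTC3
import Pool.Agent.Helper73.DZ.NRS
import Pool.Agent.Helper73.DZ.NRV
import Pool.Agent.Helper81.DZ.BLK
import Pool.Agent.Helper81.DZ.STA
import Pool.Agent.Helper89.DZ.WOP3
import Pool.Agent.Helper89.DZ.WPW3
import Pool.Agent.Helper93.DZ.XGR3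
import Pool.Agent.Helper93.DZ.XGR4
import Pool.Agent.Helper95.DZ.RIXS
import Pool.Agent.Helper96.DZ.XRI
import Pool.Agent.Helper97.DZ.XMN
import Pool.Agent.Helper97.DZ.XMN4
import Pool.Agent.Helper97.DZ.XSD
import Pool.Agent.Helper97.DZ.XTH3
import Pool.Agent.Helper97.DZ.XTH4
import Pool.Agent.Helper98.DZ.CIT3
import Pool.Agent.Helper98.DZ.CSP4
import Pool.Agent.Helper98.DZ.CTH4

/-!
Assembly of the modules: compact group extensions with Riemann integrable cocycles.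
-/

namespace Pool.Agent.Helper40.DZ


universe u

theorem all_SDL : ST_SDL := st_SDL

theorem all_KER : ST_KER := st_KER all_SDL

theorem all_RIS : ST_RIS := Pool.Agent.Helper95.DZ.st_RIS

theorem all_RIX : ST_RIX := Pool.Agent.Helper95.DZ.st_RIX

theorem all_EQR : ST_EQR := st_EQR all_RIS

theorem all_FPR : ST_FPR := st_FPR

theorem all_NRV : ST_NRV := st_NRV all_FPR

theorem all_NRS : ST_NRS :=
  st_NRS all_FPR Pool.Agent.Helper16.CZ.all_TFD Pool.Agent.Helper16.CZ.all_TMP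

theorem all_QLM : ST_QLM := st_QLM all_FPR

theorem all_NRD : ST_NRD := st_NRD all_FPR

theorem all_MQC : ST_MQC := st_MQC all_FPR

theorem all_PAT : ST_PAT :=
  st_PAT Pool.Agent.Helper16.CZ.all_TPO Pool.Agent.Helper16.CZ.all_TEQ

theorem all_PAR : ST_PAR :=
  st_PAR all_PAT all_RIS all_EQR all_FPR all_MQC all_NRD Pool.Agent.Helper16.CZ.all_TEQ

theorem all_KNA : ST_KNA := st_KNA all_NRV all_NRS Pool.Agent.Helper16.CZ.all_TMP

theorem all_STA : ST_STA :=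
  st_STA all_KNA all_KER all_QLM all_NRD Pool.Agent.Helper16.CZ.all_TMP

theorem all_STR : ST_STR :=
  st_STR all_STA all_KNA all_KER all_NRD all_PAR Pool.Agent.Helper16.CZ.all_TMP

theorem all_PTC3 : ST_PTC3 :=
  st_PTC3 Pool.Agent.Helper16.BZ.all_KT2 Pool.Agent.Helper16.BZ.all_GAM2 all_STR
    Pool.Agent.Helper16.MD.all_WND

theorem all_WOP3 : ST_WOP3 := st_WOP3

theorem all_WPW3 : ST_WPW3 := st_WPW3

theorem all_DEC3 : ST_DEC3 :=
  st_DEC3 all_WOP3 all_WPW3 Pool.Agent.Helper16.BZ.all_ATM2 Pool.Agent.Helper16.BZ.all_DEE2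

theorem all_PTB3 : ST_PTB3 := st_PTB3 all_EQR Pool.Agent.Helper16.AZ.all_MRF

theorem all_THB3 : ST_THB3 :=
  st_THB3 all_DEC3 all_PTB3 all_PTC3 Pool.Agent.Helper16.CZ.all_THO
    Pool.Agent.Helper16.CZ.all_TMP Pool.Agent.Helper16.CZ.all_TEQ

theorem all_LAT : ST_LAT := st_LAT

theorem all_AFB : ST_AFB := st_AFB all_LAT

theorem all_GBS : ST_GBS := st_GBS all_THB3 all_AFB Pool.Agent.Helper16.CZ.all_CFN

theorem all_ORB : ST_ORB := st_ORB

theorem all_BLK : ST_BLK := st_BLK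

theorem all_ZEA : ST_ZEA := st_ZEA all_ORB all_BLK all_GBS

theorem all_XMN : ST_XMN := st_XMN

theorem all_XSD : ST_XSD := st_XSD

theorem all_XTH3 : ST_XTH3 := st_XTH3 all_XMN all_XSD

theorem all_XGR3 : ST_XGR3 := st_XGR3 all_XTH3

theorem all_XRI : ST_XRI := st_XRI all_XGR3 all_RIX

theorem all_XMN4 : ST_XMN4 := st_XMN4

theorem all_XTH4 : ST_XTH4 := st_XTH4 all_XMN4 all_XSD

theorem all_XGR4 : ST_XGR4 := st_XGR4 all_XTH4

theorem all_CIT3 : ST_CIT3.{u} := st_CIT3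

theorem all_CTH4 : ST_CTH4.{u} := st_CTH4 Pool.Agent.Helper16.BZ.all_RMF2 all_CIT3

theorem all_CSP4 : ST_CSP4.{u} := st_CSP4 all_CTH4

end Pool.Agent.Helper40.DZ
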