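import Pool.Agent.Helper40.DZ.Stmts2
import Pool.Agent.Helper96.DZ.Stmts3
import Pool.Agent.Helper40.DZ.Pub

/-!
The last step: from the statements of the modules to the hand-in.
-/

open Finset Filter MeasureTheory Topology
open scoped ArithmeticFunction.Moebius

namespace Pool.Agent.Helper40.DZ

open Pool.Agent.Helper40.Mob (TwistedDisjoint)
open Pool.Agent.Helper16.CZP (Base Rot)

universe u

theorem good_c {r : ℕ} {S : UnitAddTorus (Fin r) → UnitAddTorus (Fin r)} (h : Good3 S) :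
    GoodC S :=
  fun d φ v u x hφ hu hv => h d φ v u x (UR.of_continuous hφ hu) hv

theorem c_goodN {r : ℕ} {S : UnitAddTorus (Fin r) → UnitAddTorus (Fin r)} (h : GoodC S) :
    GoodN Measure.count S := by
  intro d φ v u x hφ hu hv
  refine h d φ v u x (continuous_iff_continuousAt.mpr fun y => ?_) hu hv
  exact Measure.ae_count_iff.mp hφ y

theorem base_EQ (hAEQ : Pool.Agent.Helper16.BZ.ST_AEQ) (hTEQ : Pool.Agent.Helper16.CZ.ST_TEQ)
    (hCFN : Pool.Agent.Helper16.CZ.ST_CFN) {r : ℕ}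
    (S : C(UnitAddTorus (Fin r), UnitAddTorus (Fin r))) (h : Base S) :
    Pool.Agent.Helper16.BZ.EQ S (Pool.Agent.Helper16.AZ.mm r) := by
  rcases h with ⟨A, β, hA⟩ | ⟨lev, D, f, hT⟩
  · exact hAEQ r A β S (fun x i => hA.2.2 x i) ⟨hA.1, hA.2.1⟩
  · obtain ⟨ψ, hψ⟩ := hCFN r lev D f S hT
    exact hTEQ r lev D ψ S hψ

/-- the case of the transformations `Base` -/
theorem fin_base (hXRI : ST_XRI) (hG : ST_GBS) (hAEQ : Pool.Agent.Helper16.BZ.ST_AEQ)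
    (hTEQ : Pool.Agent.Helper16.CZ.ST_TEQ) (hCFN : Pool.Agent.Helper16.CZ.ST_CFN)
    (r : ℕ) (d : ℕ → ℕ) (G : Subgroup (DZP.UU d))
    (S : C(UnitAddTorus (Fin r), UnitAddTorus (Fin r))) (Φ : UnitAddTorus (Fin r) → G)
    (F : UnitAddTorus (Fin r) × G → ℂ)
    (hc : IsClosed (G : Set (DZP.UU d))) (hS : Base S) (hΦ : DZP.NullDisc Φ)
    (hF : DZP.FibreCont F) (y : UnitAddTorus (Fin r) × G) :
    Tendsto (fun N : ℕ => (∑ n ∈ Finset.Icc 1 N, (μ n : ℂ) * F ((DZP.SKG G S Φ)^[n] y)) /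
      (N : ℂ)) atTop (𝓝 0) := by
  obtain ⟨⟨C, hC⟩, hF⟩ := hF
  exact hXRI r d G S Φ hc (hG r S hS) (base_EQ hAEQ hTEQ hCFN S hS) hΦ F C hC hF y

/-- the case of zero entropy -/
theorem fin_zero (hXGR : ST_XGR4) (hZ : ST_ZEA) (r : ℕ) (d : ℕ → ℕ) (G : Subgroup (DZP.UU d))
    (S : C(UnitAddTorus (Fin r), UnitAddTorus (Fin r))) (Φ : UnitAddTorus (Fin r) → G)
    (F : UnitAddTorus (Fin r) × G → ℂ)
    (hc : IsClosed (G : Set (DZP.UU d))) (hS : DZP.ZeroEnt S) (hΦ : Continuous Φ)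
    (hF : Continuous F) (y : UnitAddTorus (Fin r) × G) :
    Tendsto (fun N : ℕ => (∑ n ∈ Finset.Icc 1 N, (μ n : ℂ) * F ((DZP.SKG G S Φ)^[n] y)) /
      (N : ℂ)) atTop (𝓝 0) := by
  obtain ⟨A, β, hA⟩ := hS
  exact hXGR r d Measure.count G S Φ hc (c_goodN (hZ r A β S hA))
    (Eventually.of_forall fun x => hΦ.continuousAt) ⟨F, hF⟩ y

/-- part 1 -/
theorem fin_one (hXRI : ST_XRI) (hG : ST_GBS) (hAEQ : Pool.Agent.Helper16.BZ.ST_AEQ)
    (hTEQ : Pool.Agent.Helper16.CZ.ST_TEQ) (hCFN : Pool.Agent.Helper16.CZ.ST_CFN)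
    (hXGR : ST_XGR4) (hZ : ST_ZEA) (r : ℕ) (d : ℕ → ℕ) (G : Subgroup (DZP.UU d))
    (S : C(UnitAddTorus (Fin r), UnitAddTorus (Fin r))) (Φ : UnitAddTorus (Fin r) → G)
    (F : UnitAddTorus (Fin r) × G → ℂ) (hc : IsClosed (G : Set (DZP.UU d)))
    (h : DZP.Adm S Φ F) (y : UnitAddTorus (Fin r) × G) :
    DZP.Vanish (DZP.SKG G S Φ) F y := by
  rcases h with h | h
  · exact fin_base hXRI hG hAEQ hTEQ hCFN r d G S Φ F hc h.1 h.2.1 h.2.2 y
  · exact fin_zero hXGR hZ r d G S Φ F hc h.1 h.2.1 h.2.2 y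

/-- part 2 -/
theorem fin_two (hCSP : ST_CSP4.{u}) (hG : ST_GBS) (hZ : ST_ZEA)
    (B : Type u) [CStarAlgebra B] (r : ℕ) (S : C(UnitAddTorus (Fin r), UnitAddTorus (Fin r)))
    (α : B →⋆ₐ[ℂ] B) (π : C(UnitAddTorus (Fin r), ℂ) →⋆ₐ[ℂ] B)
    (hS : Base S ∨ DZP.ZeroEnt S) (hr : Rot S α π) (a : B)
    (ha : a ∈ closure (Submodule.span ℂ (DZP.FamSet α π) : Set B)) : TwistedDisjoint α a := by
  refine hCSP B r S α π ?_ hr a ha
  rcases hS with hS | ⟨A, β, hA⟩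
  · exact good_c (hG r S hS)
  · exact hZ r A β S hA

end Pool.Agent.Helper40.DZ
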