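import Pool.Agent.Helper40.DZ.Stmts

/-!
Moebius disjointness of compact group extensions with Riemann integrable cocycles:
statements of further modules (MP_7a8f48_an): all affine maps of zero entropy, and the versions
of the last modules with an arbitrary measure `ν` (for the counting measure the functions are
continuous everywhere).
-/

open Finset Filter MeasureTheory Topology
open scoped ComplexConjugate InnerProductSpace

namespace Pool.Agent.Helper40.DZ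

open Pool.Agent.Helper16.AZ (T E Op mm fc Eig PP)
open Pool.Agent.Helper16.BZ (co Wk EE ff EQ Act Rot)
open Pool.Agent.Helper16.CZ (Tw Orth Fn)
open Pool.Agent.Helper16.MD (MS PB Am RW Rich)
open Pool.Agent.Helper40.Mob (IsState TwistedDisjoint)
open UnitAddTorus (mFourier)

universe u

/-- the theorem holds for `S` and all cocycles whose set of discontinuities is a null set for `ν` -/
def GoodN {r : ℕ} (ν : Measure (T r)) (S : T r → T r) : Prop := ∀ (d : ℕ) (φ : T r → Op d)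
  (v : T r → E d) (u : E d) (x : T r), (∀ᵐ y ∂ν, ContinuousAt φ y) →
  (∀ y, φ y ∈ unitary (Op d)) → Continuous v →
  Tendsto (fun N : ℕ => MS (ff S φ v u x) N / (N : ℂ)) atTop (𝓝 0)

/-- the theorem holds for `S` and all continuous cocycles -/
def GoodC {r : ℕ} (S : T r → T r) : Prop := ∀ (d : ℕ) (φ : T r → Op d)
  (v : T r → E d) (u : E d) (x : T r), Continuous φ → (∀ y, φ y ∈ unitary (Op d)) →
  Continuous v → Tendsto (fun N : ℕ => MS (ff S φ v u x) N / (N : ℂ)) atTop (𝓝 0)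

/-- `S` is the affine map `x ↦ A x + β` and the eigenvalues of `A` are zero or roots of unity -/
def ZEnt {r : ℕ} (A : Matrix (Fin r) (Fin r) ℤ) (β : T r) (S : T r → T r) : Prop :=
  (∃ m Q : ℕ, 1 ≤ Q ∧ A ^ m * (A ^ Q - 1) ^ r = 0) ∧ ∀ x i, S x i = (∑ j, A i j • x j) + β i

/-- ORB: the orbits of the affine maps of zero entropy. -/
def ST_ORB : Prop := ∀ (r : ℕ) (A : Matrix (Fin r) (Fin r) ℤ) (β : T r) (S : T r → T r) (x : T r),
  ZEnt A β S → ∃ (N Q n₀ : ℕ) (A' : Matrix (Fin N) (Fin N) ℤ) (β' : T N) (S' : C(T N, T N))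
    (P : ℕ → T N → T r) (y : T N), 1 ≤ Q ∧ Pool.Agent.Helper16.CZP.Affine A' β' S' ∧
    (∀ c, Continuous (P c)) ∧ ∀ n, n₀ ≤ n → S^[n] x = P (n % Q) (S'^[n] y)

/-- BLK: the theorem passes to such orbits. -/
def ST_BLK : Prop := ∀ (r N Q n₀ : ℕ) (S : T r → T r) (S' : T N → T N) (P : ℕ → T N → T r)
  (x : T r) (y : T N), 1 ≤ Q → (∀ c, Continuous (P c)) →
  (∀ n, n₀ ≤ n → S^[n] x = P (n % Q) (S'^[n] y)) → GoodC S' →
  ∀ (d : ℕ) (φ : T r → Op d) (v : T r → E d) (u : E d), Continuous φ →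
  (∀ y, φ y ∈ unitary (Op d)) → Continuous v →
  Tendsto (fun N : ℕ => MS (ff S φ v u x) N / (N : ℂ)) atTop (𝓝 0)

/-- ZEA: the theorem for the affine maps of zero entropy. -/
def ST_ZEA : Prop := ∀ (r : ℕ) (A : Matrix (Fin r) (Fin r) ℤ) (β : T r) (S : T r → T r),
  ZEnt A β S → GoodC S

/-- XMN: the theorem for products of entries. -/
def ST_XMN4 : Prop := ∀ (r : ℕ) (d : ℕ → ℕ) (ν : Measure (T r)) (S : T r → T r)
  (Φ : T r → UU d), GoodN ν S → (∀ᵐ x ∂ν, ContinuousAt Φ x) → ∀ (f : C(T r, ℂ)) (L : ℕ)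
  (s : Fin L → Bool) (k : Fin L → ℕ) (I J : ∀ l : Fin L, Fin (d (k l))) (y : T r × UU d),
  Tendsto (fun N : ℕ => MS (fun n => f ((SK3 S Φ)^[n] y).1 * mono s k I J ((SK3 S Φ)^[n] y).2) N /
    (N : ℂ)) atTop (𝓝 0)

/-- XTH: the theorem for skew products. -/
def ST_XTH4 : Prop := ∀ (r : ℕ) (d : ℕ → ℕ) (ν : Measure (T r)) (S : T r → T r) (Φ : T r → UU d),
  GoodN ν S → (∀ᵐ x ∂ν, ContinuousAt Φ x) → ∀ (F : C(T r × UU d, ℂ)) (y : T r × UU d),
  Tendsto (fun N : ℕ => MS (fun n => F ((SK3 S Φ)^[n] y)) N / (N : ℂ)) atTop (𝓝 0)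

/-- XGR: the theorem for skew products with values in a closed subgroup. -/
def ST_XGR4 : Prop := ∀ (r : ℕ) (d : ℕ → ℕ) (ν : Measure (T r)) (G : Subgroup (UU d))
  (S : T r → T r) (Φ : T r → G), IsClosed (G : Set (UU d)) →
  GoodN ν S → (∀ᵐ x ∂ν, ContinuousAt Φ x) → ∀ (F : C(T r × G, ℂ)) (y : T r × G),
  Tendsto (fun N : ℕ => MS (fun n => F ((SKG3 G S Φ)^[n] y)) N / (N : ℂ)) atTop (𝓝 0)

/-- CTH: the theorem for one family. -/
def ST_CTH4 : Prop := ∀ (A : Type u) [CStarAlgebra A] (r d : ℕ) (S : C(T r, T r))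
  (α : A →⋆ₐ[ℂ] A) (π : C(T r, ℂ) →⋆ₐ[ℂ] A) (Φ : C(T r, Matrix (Fin d) (Fin d) ℂ))
  (v : Fin d → A), GoodC S → Rot S α π → Fam3 α π Φ v →
  ∀ (f : C(T r, ℂ)) i, TwistedDisjoint α (π f * v i)

/-- CSP: the theorem for the closed linear span. -/
def ST_CSP4 : Prop := ∀ (A : Type u) [CStarAlgebra A] (r : ℕ) (S : C(T r, T r))
  (α : A →⋆ₐ[ℂ] A) (π : C(T r, ℂ) →⋆ₐ[ℂ] A), GoodC S → Rot S α π → ∀ a : A,
  a ∈ closure ((Submodule.span ℂ {x : A | ∃ (d : ℕ) (Φ : C(T r, Matrix (Fin d) (Fin d) ℂ))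
    (v : Fin d → A), Fam3 α π Φ v ∧ ∃ (f : C(T r, ℂ)) (i : Fin d), π f * v i = x} :
    Submodule ℂ A) : Set A) → TwistedDisjoint α a

end Pool.Agent.Helper40.DZ
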